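import Pool.Agent.Helper61.NW.Goals

/-!
# Project NW, packet CYL: cylinders without crossings
-/

set_option autoImplicit false

namespace Pool.Agent.Helper96.NW

open Pool.Agent.Helper52.Wq2 Pool.Agent.Helper61.NW

/-- the height of a route at the left end -/
def al (D : ℕ) (a b : ℤ) : ℤ := 6 * (D + 1) * a + 3 * (b - a + D) + 1

/-- the height of a route at the right end -/
def be (D : ℕ) (a b : ℤ) : ℤ := 6 * (D + 1) * b + 3 * (a - b + D) + 1

/-- the route of the edge `(a, b)` -/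
def rt (D : ℕ) (a b : ℤ) (W x : ℕ) : ℤ :=
  (al D a b * W + (be D a b - al D a b) * x) / W

theorem rt_zero (D : ℕ) (a b : ℤ) (W : ℕ) (hW : 0 < W) : rt D a b W 0 = al D a b := by
  have hW' : (W : ℤ) ≠ 0 := by omega
  unfold rt
  rw [Nat.cast_zero, mul_zero, add_zero]
  exact Int.mul_ediv_cancel _ hW'

theorem rt_top (D : ℕ) (a b : ℤ) (W : ℕ) (hW : 0 < W) : rt D a b W W = be D a b := by
  have hW' : (W : ℤ) ≠ 0 := by omega
  unfold rt
  rw [show al D a b * (W : ℤ) + (be D a b - al D a b) * W = be D a b * W by ring]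
  exact Int.mul_ediv_cancel _ hW'

theorem diff_le (D : ℕ) (a b : ℤ) (hab : |a - b| ≤ D) : |be D a b - al D a b| ≤ 6 * D * D := by
  have e : be D a b - al D a b = 6 * D * (b - a) := by
    unfold be al
    ring
  rw [e, abs_mul, abs_of_nonneg (by positivity : (0 : ℤ) ≤ 6 * D), abs_sub_comm]
  exact mul_le_mul_of_nonneg_left hab (by positivity)

theorem rt_step (D : ℕ) (a b : ℤ) (W : ℕ) (hW : 0 < W) (h : |be D a b - al D a b| ≤ W) (x : ℕ) :
    rt D a b W x - 1 ≤ rt D a b W (x + 1) ∧ rt D a b W (x + 1) ≤ rt D a b W x + 1 := by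
  have hW0 : (0 : ℤ) < W := by omega
  have hW' : (W : ℤ) ≠ 0 := hW0.ne'
  unfold rt
  rw [abs_le] at h
  generalize al D a b * (W : ℤ) = p at *
  generalize be D a b - al D a b = d at *
  have e : p + d * ((x + 1 : ℕ) : ℤ) = (p + d * x) + d := by
    push_cast
    ring
  rw [e]
  generalize p + d * (x : ℤ) = N
  constructor
  · have h1 : (N + (-1) * (W : ℤ)) / W ≤ (N + d) / W := Int.ediv_le_ediv hW0 (by omega)
    rw [Int.add_mul_ediv_right _ _ hW'] at h1
    omega
  · have h1 : (N + d) / W ≤ (N + 1 * (W : ℤ)) / W := Int.ediv_le_ediv hW0 (by omega)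
    rw [Int.add_mul_ediv_right _ _ hW'] at h1
    omega

theorem rt_cmp (D : ℕ) {a b a' b' : ℤ} (W x : ℕ) (hW : 0 < W) (hx : x ≤ W) (ha : a < a')
    (hb : b ≤ b') : rt D a b W x + 3 ≤ rt D a' b' W x := by
  have hW0 : (0 : ℤ) < W := by omega
  have hW' : (W : ℤ) ≠ 0 := hW0.ne'
  have hx' : (0 : ℤ) ≤ (W : ℤ) - x := by omega
  have hx0 : (0 : ℤ) ≤ x := by omega
  have hD : (0 : ℤ) ≤ D := by omega
  have h1 : 3 ≤ al D a' b' - al D a b := by
    have e : al D a' b' - al D a b = 6 * (D * (a' - a)) + 3 * (a' - a) + 3 * (b' - b) := by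
      unfold al
      ring
    have : 0 ≤ (D : ℤ) * (a' - a) := mul_nonneg hD (by omega)
    rw [e]
    omega
  have h2 : 3 ≤ be D a' b' - be D a b := by
    have e : be D a' b' - be D a b = 6 * (D * (b' - b)) + 3 * (b' - b) + 3 * (a' - a) := by
      unfold be
      ring
    have : 0 ≤ (D : ℤ) * (b' - b) := mul_nonneg hD (by omega)
    rw [e]
    omega
  unfold rt
  have h3 : (al D a b * W + (be D a b - al D a b) * x) + 3 * (W : ℤ) ≤
      al D a' b' * W + (be D a' b' - al D a' b') * x := by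
    have e : al D a' b' * W + (be D a' b' - al D a' b') * x -
        (al D a b * W + (be D a b - al D a b) * x) =
        (al D a' b' - al D a b) * ((W : ℤ) - x) + (be D a' b' - be D a b) * x := by ring
    have h4 : 3 * ((W : ℤ) - x) ≤ (al D a' b' - al D a b) * ((W : ℤ) - x) :=
      mul_le_mul_of_nonneg_right h1 hx'
    have h5 : 3 * (x : ℤ) ≤ (be D a' b' - be D a b) * x := mul_le_mul_of_nonneg_right h2 hx0
    linarith
  have h6 := Int.ediv_le_ediv hW0 h3
  rw [Int.add_mul_ediv_right _ _ hW'] at h6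
  exact h6

theorem al_mem (D : ℕ) (a b : ℤ) (hab : |a - b| ≤ D) :
    6 * (D + 1) * a + 1 ≤ al D a b ∧ al D a b + 2 ≤ 6 * (D + 1) * a + 6 * (D + 1) := by
  rw [abs_le] at hab
  unfold al
  constructor <;> linarith

theorem be_mem (D : ℕ) (a b : ℤ) (hab : |a - b| ≤ D) :
    6 * (D + 1) * b ≤ be D a b ∧ be D a b < 6 * (D + 1) * b + 6 * (D + 1) := by
  rw [abs_le] at hab
  unfold be
  constructor <;> linarith

/-! ### columns -/

/-- the width of the gap `j` -/
def Wd (n M : ℕ) (j : ZMod n) : ℕ := if j.val + 1 = n then M - (n - 1) * (M / n) else M / n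

/-- the columns of the gap `j` -/
def cl (n M : ℕ) (j : ZMod n) (x : ℕ) : ZMod M := ((j.val * (M / n) + x : ℕ) : ZMod M)

theorem mul_q_le (n M : ℕ) (hn : 0 < n) : (n - 1) * (M / n) + M / n ≤ M := by
  have h : n * (M / n) ≤ M := Nat.mul_div_le M n
  obtain ⟨k, rfl⟩ : ∃ k, n = k + 1 := ⟨n - 1, by omega⟩
  rw [Nat.add_sub_cancel]
  calc k * (M / (k + 1)) + M / (k + 1) = (k + 1) * (M / (k + 1)) := by ring
    _ ≤ M := h

theorem Wd_ge (n M : ℕ) (hn : 0 < n) (j : ZMod n) : M / n ≤ Wd n M j := by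
  have := mul_q_le n M hn
  unfold Wd
  split_ifs <;> omega

theorem cl_succ (n M : ℕ) (j : ZMod n) (x : ℕ) : cl n M j (x + 1) = cl n M j x + 1 := by
  unfold cl
  push_cast
  ring

theorem pos_lt (n M : ℕ) (hn : 3 ≤ n) (j : ZMod n) (x : ℕ) (hx : x < Wd n M j) :
    j.val * (M / n) + x < M := by
  have hne : NeZero n := ⟨by omega⟩
  have h1 := mul_q_le n M (by omega)
  have hj := ZMod.val_lt j
  unfold Wd at hx
  split_ifs at hx with h
  · have e : j.val = n - 1 := by omega
    rw [e]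
    omega
  · have h2 : j.val * (M / n) ≤ (n - 1) * (M / n) := Nat.mul_le_mul_right _ (by omega)
    omega

theorem cl_end (n M : ℕ) (hn : 3 ≤ n) (j : ZMod n) : cl n M j (Wd n M j) = cl n M (j + 1) 0 := by
  have hne : NeZero n := ⟨by omega⟩
  have h1 := mul_q_le n M (by omega)
  have hj := ZMod.val_lt j
  have hv : (j + 1).val = (j.val + 1) % n := by
    rw [ZMod.val_add, ZMod.val_one_eq_one_mod, Nat.mod_eq_of_lt (show 1 < n by omega)]
  unfold cl Wd
  rw [hv]
  split_ifs with h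
  · rw [h, Nat.mod_self, zero_mul, zero_add, Nat.cast_zero]
    have e : j.val = n - 1 := by omega
    rw [e]
    have e2 : (n - 1) * (M / n) + (M - (n - 1) * (M / n)) = M :=
      Nat.add_sub_of_le (le_trans (Nat.le_add_right _ _) h1)
    rw [e2, ZMod.natCast_self]
  · rw [Nat.mod_eq_of_lt (show j.val + 1 < n by omega)]
    congr 1
    ring

theorem cl_inj (n M : ℕ) (hn : 3 ≤ n) (j j' : ZMod n) (x x' : ℕ) (hx : x < Wd n M j)
    (hx' : x' < Wd n M j') (h : cl n M j x = cl n M j' x') : j = j' ∧ x = x' := by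
  have hne : NeZero n := ⟨by omega⟩
  have h1 := pos_lt n M hn j x hx
  have h2 := pos_lt n M hn j' x' hx'
  unfold cl at h
  rw [ZMod.natCast_eq_natCast_iff', Nat.mod_eq_of_lt h1, Nat.mod_eq_of_lt h2] at h
  have key : ∀ (i i' : ZMod n) (y y' : ℕ), y < Wd n M i → i.val < i'.val →
      i.val * (M / n) + y ≠ i'.val * (M / n) + y' := by
    intro i i' y y' hy hlt he
    have hi' := ZMod.val_lt i'
    unfold Wd at hy
    rw [if_neg (by omega)] at hy
    have h3 : (i.val + 1) * (M / n) ≤ i'.val * (M / n) := Nat.mul_le_mul_right _ hlt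
    rw [add_mul, one_mul] at h3
    omega
  rcases lt_trichotomy j.val j'.val with hlt | heq | hgt
  · exact absurd h (key j j' x x' hx hlt)
  · have e : j = j' := ZMod.val_injective n heq
    subst e
    exact ⟨rfl, by omega⟩
  · exact absurd h.symm (key j' j x' x hx' hgt)

/-! ### the cylinder -/

theorem adjV {M : ℕ} (r : ℤ) (c : ZMod M) : (Cyl M).Adj (r, c) (r + 1, c) := by
  unfold Cyl
  rw [SimpleGraph.fromRel_adj]
  refine ⟨?_, Or.inl (Or.inl ⟨rfl, rfl⟩)⟩
  intro h
  have := congrArg Prod.fst h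
  simp at this

theorem adjH {M : ℕ} (hM : 1 < M) (r : ℤ) (c : ZMod M) : (Cyl M).Adj (r, c) (r, c + 1) := by
  unfold Cyl
  rw [SimpleGraph.fromRel_adj]
  refine ⟨?_, Or.inl (Or.inr ⟨rfl, rfl⟩)⟩
  intro h
  have h1 : c = c + 1 := congrArg Prod.snd h
  have h2 : (1 : ZMod M) = 0 := by
    have := h1
    rw [left_eq_add] at this
    exact this
  have : Fact (1 < M) := ⟨hM⟩
  exact one_ne_zero h2

/-- the points of the branch set in the column `x` -/
def Q (n D : ℕ) (E : ZMod n → ℤ → ℤ → Prop) (M : ℕ) (v : ℤ × ZMod n) (x : ℕ) (r : ℤ) : Prop :=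
  (x = 0 ∧ 6 * (D + 1) * v.1 ≤ r ∧ r < 6 * (D + 1) * v.1 + 6 * (D + 1)) ∨
    ∃ b, E v.2 v.1 b ∧ (r = rt D v.1 b (Wd n M v.2) x ∨ r = rt D v.1 b (Wd n M v.2) (x + 1))

/-- the branch sets -/
def ph (n D : ℕ) (E : ZMod n → ℤ → ℤ → Prop) (M : ℕ) (v : ℤ × ZMod n) : Set (ℤ × ZMod M) :=
  {p | ∃ x, x < Wd n M v.2 ∧ p.2 = cl n M v.2 x ∧ Q n D E M v x p.1}

theorem cyl : CylStmt := by
  intro n hn D E hD hE
  refine ⟨n * (6 * D * D + 2), ?_⟩
  intro M hM
  have hn0 : 0 < n := by omega
  have hq : 6 * D * D + 2 ≤ M / n := by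
    rw [Nat.le_div_iff_mul_le hn0]
    calc (6 * D * D + 2) * n = n * (6 * D * D + 2) := by ring
      _ ≤ M := hM
  have hM1 : 1 < M := by
    have := Nat.div_le_self M n
    omega
  have hWq : ∀ j : ZMod n, 6 * D * D + 2 ≤ Wd n M j := fun j => hq.trans (Wd_ge n M hn0 j)
  have hW0 : ∀ j : ZMod n, 0 < Wd n M j := fun j => by
    have := hWq j
    omega
  have hdW : ∀ (j : ZMod n) (a b : ℤ), E j a b → |be D a b - al D a b| ≤ (Wd n M j : ℤ) := by
    intro j a b hab
    have h1 := diff_le D a b (hD j a b hab)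
    have h2 : ((6 * D * D + 2 : ℕ) : ℤ) ≤ (Wd n M j : ℤ) := by exact_mod_cast hWq j
    push_cast at h2
    linarith
  have hst : ∀ (j : ZMod n) (a b : ℤ), E j a b → ∀ x : ℕ,
      rt D a b (Wd n M j) x - 1 ≤ rt D a b (Wd n M j) (x + 1) ∧
      rt D a b (Wd n M j) (x + 1) ≤ rt D a b (Wd n M j) x + 1 :=
    fun j a b hab x => rt_step D a b _ (hW0 j) (hdW j a b hab) x
  -- in the first column only the block
  have hQ0 : ∀ v r, Q n D E M v 0 r →
      6 * (D + 1) * v.1 ≤ r ∧ r < 6 * (D + 1) * v.1 + 6 * (D + 1) := by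
    rintro ⟨a, j⟩ r (⟨_, h1, h2⟩ | ⟨b, hb, h⟩)
    · exact ⟨h1, h2⟩
    · have h1 := al_mem D a b (hD j a b hb)
      have h2 := rt_zero D a b (Wd n M j) (hW0 j)
      have h3 := hst j a b hb 0
      simp only at h ⊢
      rw [h2] at h3 h
      constructor <;> rcases h with h | h <;> linarith [h1.1, h1.2, h3.1, h3.2]
  refine ⟨ph n D E M, ?_, ?_, ?_⟩
  · -- connected
    rintro ⟨a, j⟩
    have hroot : ((6 * (D + 1) * a, cl n M j 0) : ℤ × ZMod M) ∈ ph n D E M (a, j) :=
      ⟨0, hW0 j, rfl, Or.inl ⟨rfl, le_rfl, by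
        have : (0 : ℤ) < 6 * (D + 1) := by positivity
        simp only
        linarith⟩⟩
    refine conn_of_root hroot ?_
    -- the block
    have hblk : ∀ k : ℕ, (k : ℤ) < 6 * (D + 1) →
        Relation.ReflTransGen (fun p q => (Cyl M).Adj p q ∧ q ∈ ph n D E M (a, j))
          (6 * (D + 1) * a, cl n M j 0) (6 * (D + 1) * a + k, cl n M j 0) := by
      intro k
      induction k with
      | zero =>
        intro _
        rw [Nat.cast_zero, add_zero]
      | succ k ih =>
        intro hk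
        push_cast at hk
        refine (ih (by linarith)).tail ⟨?_, ?_⟩
        · have := adjV (6 * (D + 1) * a + k : ℤ) (cl n M j 0)
          rw [add_assoc] at this
          push_cast
          exact this
        · refine ⟨0, hW0 j, rfl, Or.inl ⟨rfl, ?_, ?_⟩⟩
          · simp only
            push_cast
            linarith
          · simp only
            push_cast
            linarith
    have hblk' : ∀ r : ℤ, 6 * (D + 1) * a ≤ r → r < 6 * (D + 1) * a + 6 * (D + 1) →
        Relation.ReflTransGen (fun p q => (Cyl M).Adj p q ∧ q ∈ ph n D E M (a, j))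
          (6 * (D + 1) * a, cl n M j 0) (r, cl n M j 0) := by
      intro r h1 h2
      obtain ⟨k, hk⟩ := Int.eq_ofNat_of_zero_le (show 0 ≤ r - 6 * (D + 1) * a by linarith)
      have := hblk k (by rw [← hk]; linarith)
      rw [← hk, add_sub_cancel] at this
      exact this
    -- the routes
    have hrt : ∀ b, E j a b → ∀ x : ℕ, x < Wd n M j →
        Relation.ReflTransGen (fun p q => (Cyl M).Adj p q ∧ q ∈ ph n D E M (a, j))
          (6 * (D + 1) * a, cl n M j 0) (rt D a b (Wd n M j) x, cl n M j x) ∧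
        Relation.ReflTransGen (fun p q => (Cyl M).Adj p q ∧ q ∈ ph n D E M (a, j))
          (6 * (D + 1) * a, cl n M j 0) (rt D a b (Wd n M j) (x + 1), cl n M j x) := by
      intro b hb x
      induction x with
      | zero =>
        intro _
        have h1 := hQ0 (a, j) (rt D a b (Wd n M j) 0) (Or.inr ⟨b, hb, Or.inl rfl⟩)
        have h2 := hQ0 (a, j) (rt D a b (Wd n M j) (0 + 1)) (Or.inr ⟨b, hb, Or.inr rfl⟩)
        exact ⟨hblk' _ h1.1 h1.2, hblk' _ h2.1 h2.2⟩
      | succ x ih =>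
        intro hx
        obtain ⟨_, ih2⟩ := ih (by omega)
        have hA : Relation.ReflTransGen (fun p q => (Cyl M).Adj p q ∧ q ∈ ph n D E M (a, j))
            (6 * (D + 1) * a, cl n M j 0) (rt D a b (Wd n M j) (x + 1), cl n M j (x + 1)) := by
          refine ih2.tail ⟨?_, ?_⟩
          · rw [cl_succ]
            exact adjH hM1 _ _
          · exact ⟨x + 1, hx, rfl, Or.inr ⟨b, hb, Or.inl rfl⟩⟩
        refine ⟨hA, ?_⟩
        have hmem : ((rt D a b (Wd n M j) (x + 1 + 1), cl n M j (x + 1)) : ℤ × ZMod M) ∈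
            ph n D E M (a, j) := ⟨x + 1, hx, rfl, Or.inr ⟨b, hb, Or.inr rfl⟩⟩
        have h3 := hst j a b hb (x + 1)
        generalize rt D a b (Wd n M j) (x + 1 + 1) = r2 at *
        generalize rt D a b (Wd n M j) (x + 1) = r1 at *
        rcases lt_trichotomy r1 r2 with h | h | h
        · have e : r2 = r1 + 1 := by omega
          rw [e] at hmem ⊢
          exact hA.tail ⟨adjV _ _, hmem⟩
        · rw [← h]
          exact hA
        · have e : r1 = r2 + 1 := by omega
          rw [e] at hA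
          exact hA.tail ⟨(adjV _ _).symm, hmem⟩
    rintro ⟨r, c⟩ ⟨x, hx, hc, hQ⟩
    simp only at hc hQ hx
    subst hc
    rcases hQ with ⟨h0, h1, h2⟩ | ⟨b, hb, h⟩
    · subst h0
      exact hblk' r h1 h2
    · rcases h with h | h
      · rw [h]
        exact (hrt b hb x hx).1
      · rw [h]
        exact (hrt b hb x hx).2
  · -- disjoint
    have key : ∀ (a a' : ℤ) (j : ZMod n) (x : ℕ) (r : ℤ), x < Wd n M j → a < a' →
        Q n D E M (a, j) x r → ¬ Q n D E M (a', j) x r := by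
      intro a a' j x r hx haa h h'
      rcases Nat.eq_zero_or_pos x with h0 | h0
      · subst h0
        have h1 := (hQ0 _ _ h).2
        have h2 := (hQ0 _ _ h').1
        simp only at h1 h2
        have h3 : (6 : ℤ) * (D + 1) * (a + 1) ≤ 6 * (D + 1) * a' :=
          mul_le_mul_of_nonneg_left (by omega) (by positivity)
        linarith
      · rcases h with ⟨h1, _⟩ | ⟨b, hb, h⟩
        · omega
        rcases h' with ⟨h1, _⟩ | ⟨b', hb', h'⟩
        · omega
        simp only at hb hb' h h'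
        have hbb := hE j a b a' b' hb hb' haa
        have h3 := rt_cmp D (Wd n M j) x (hW0 j) hx.le haa hbb
        have h4 := hst j a b hb x
        have h5 := hst j a' b' hb' x
        rcases h with h | h <;> rcases h' with h' | h' <;> omega
    rintro ⟨a, j⟩ ⟨a', j'⟩ ⟨r, c⟩ ⟨x, hx, hc, hQ⟩ ⟨x', hx', hc', hQ'⟩
    simp only at hc hc' hQ hQ' hx hx'
    obtain ⟨e1, e2⟩ := cl_inj n M hn j j' x x' hx hx' (hc.symm.trans hc')
    subst e1 e2
    rcases lt_trichotomy a a' with h | h | h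
    · exact absurd hQ' (key a a' j x r hx h hQ)
    · rw [h]
    · exact absurd hQ (key a' a j x r hx h hQ')
  · -- edges
    have main : ∀ v v' : ℤ × ZMod n,
        ((v'.2 = v.2 ∧ v'.1 = v.1 + 1) ∨ (v'.2 = v.2 + 1 ∧ E v.2 v.1 v'.1)) →
        ∃ p ∈ ph n D E M v, ∃ q ∈ ph n D E M v', (Cyl M).Adj p q := by
      rintro ⟨a, j⟩ ⟨b, j'⟩ (⟨h1, h2⟩ | ⟨h1, h2⟩)
      · simp only at h1 h2
        subst h1 h2
        have hpos : (0 : ℤ) < 6 * (D + 1) := by positivity
        refine ⟨(6 * (D + 1) * a + 6 * (D + 1) - 1, cl n M j' 0),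
          ⟨0, hW0 j', rfl, Or.inl ⟨rfl, by simp only; linarith, by simp only; linarith⟩⟩,
          (6 * (D + 1) * (a + 1), cl n M j' 0),
          ⟨0, hW0 j', rfl, Or.inl ⟨rfl, le_rfl, by simp only; linarith⟩⟩, ?_⟩
        have h3 := adjV (6 * (D + 1) * a + 6 * (D + 1) - 1 : ℤ) (cl n M j' 0)
        rw [sub_add_cancel] at h3
        have e : (6 * (D + 1) * (a + 1) : ℤ) = 6 * (D + 1) * a + 6 * (D + 1) := by ring
        rw [e]
        exact h3
      · simp only at h1 h2
        subst h1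
        have hb := be_mem D a b (hD j a b h2)
        have hW := hW0 j
        refine ⟨(be D a b, cl n M j (Wd n M j - 1)),
          ⟨Wd n M j - 1, by simp only; omega, rfl, Or.inr ⟨b, h2, Or.inr ?_⟩⟩,
          (be D a b, cl n M (j + 1) 0),
          ⟨0, hW0 _, rfl, Or.inl ⟨rfl, hb.1, hb.2⟩⟩, ?_⟩
        · simp only
          rw [Nat.sub_add_cancel hW, rt_top D a b _ hW]
        · have h3 := adjH hM1 (be D a b) (cl n M j (Wd n M j - 1))
          rw [← cl_succ, Nat.sub_add_cancel hW, cl_end n M hn] at h3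
          exact h3
    intro v v' hadj
    rw [SimpleGraph.fromRel_adj] at hadj
    rcases hadj.2 with h | h
    · exact main v v' h
    · obtain ⟨p, hp, q, hq', hpq⟩ := main v' v h
      exact ⟨q, hq', p, hp, hpq.symm⟩

end Pool.Agent.Helper96.NW
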