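import Pool.Agent.Helper61.NW.Goals2
import Pool.Agent.Helper38.NW.LS

/-!
# Project NW+, packet DIH: the dihedral type gives line systems (unified version)
-/

set_option autoImplicit false

namespace Pool.Agent.Helper96.NW

open Pool.Agent.Helper52.Wq2 Pool.Agent.Helper61.NW
open scoped Nat

universe u

variable {Γ : Type u} [Group Γ] {ε : Γ →* ℤˣ} {h : Γ → ℤ}

theorem eps_cases (ε : Γ →* ℤˣ) (g : Γ) : ε g = 1 ∨ ε g = -1 := Int.units_eq_one_or _

theorem h_one (D : Dh ε h) : h 1 = 0 := by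
  have := D.coc 1 1
  rw [map_one, mul_one] at this
  simpa using this

theorem h_inv (D : Dh ε h) (g : Γ) : h g⁻¹ = -((ε g : ℤ) * h g) := by
  have h1 := D.coc g g⁻¹
  rw [mul_inv_cancel, h_one D] at h1
  rcases eps_cases ε g with e | e <;> rw [e] at h1 ⊢ <;> simp at h1 ⊢ <;> omega

/-- the kernel as a subgroup -/
def KK (D : Dh ε h) : Subgroup Γ where
  carrier := {g | ε g = 1 ∧ h g = 0}
  mul_mem' := by
    rintro a b ⟨h1, h2⟩ ⟨h3, h4⟩
    refine ⟨by rw [map_mul, h1, h3, one_mul], ?_⟩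
    rw [D.coc, h2, h4, mul_zero, add_zero]
  one_mem' := ⟨map_one _, h_one D⟩
  inv_mem' := by
    rintro a ⟨h1, h2⟩
    refine ⟨by rw [map_inv, h1, inv_one], ?_⟩
    rw [h_inv D, h2, mul_zero, neg_zero]

theorem mem_KK (D : Dh ε h) (g : Γ) : g ∈ KK D ↔ ε g = 1 ∧ h g = 0 := Iff.rfl

theorem h_conj (D : Dh ε h) (x w : Γ) (hw : ε w = 1) : h (x⁻¹ * w * x) = (ε x : ℤ) * h w := by
  rw [D.coc, D.coc, h_inv D, map_mul, map_inv, hw, mul_one]
  rcases eps_cases ε x with e | e <;> rw [e] <;> simp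

instance KK_normal (D : Dh ε h) : (KK D).Normal := by
  refine ⟨fun n hn g => ?_⟩
  rw [mem_KK] at hn ⊢
  refine ⟨by rw [map_mul, map_mul, hn.1, mul_one, map_inv, mul_inv_cancel], ?_⟩
  have := h_conj D g⁻¹ n hn.1
  rw [inv_inv, hn.2, mul_zero] at this
  exact this

theorem h_pow (D : Dh ε h) (w : Γ) (hw : ε w = 1) (n : ℕ) : h (w ^ n) = n * h w := by
  induction n with
  | zero => rw [pow_zero, h_one D]; simp
  | succ n ih =>
    rw [pow_succ, D.coc, ih, map_pow, hw, one_pow]
    push_cast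
    ring

theorem h_zpow1 (D : Dh ε h) (w : Γ) (hw : ε w = 1) (e : ℤ) (he : e = 1 ∨ e = -1) :
    h (w ^ e) = e * h w := by
  rcases he with rfl | rfl
  · rw [zpow_one, one_mul]
  · rw [zpow_neg_one, h_inv D, hw]
    simp

theorem KK_finite (D : Dh ε h) : Finite (KK D) := D.ker.to_subtype

/-- a power of `z` commutes with the kernel -/
theorem pow_comm (D : Dh ε h) (z : Γ) (n : ℕ) (hn : Nat.card (KK D) ≤ n) (k : Γ)
    (hk : k ∈ KK D) : z ^ (n !) * k = k * z ^ (n !) := by
  classical
  have hf := KK_finite D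
  let σ : Equiv.Perm (KK D) := MulAut.toPerm (KK D) (MulAut.conjNormal z)
  have h1 : σ ^ (n !) = 1 := by
    have h2 : σ ^ Nat.card (Equiv.Perm (KK D)) = 1 := pow_card_eq_one'
    rw [Nat.card_perm] at h2
    obtain ⟨c, hc⟩ := Nat.factorial_dvd_factorial hn
    rw [hc, pow_mul, h2, one_pow]
  have h3 : MulAut.toPerm (KK D) (MulAut.conjNormal (z ^ (n !))) = 1 := by
    rw [map_pow, map_pow]
    exact h1
  have h4 := congrArg (fun p : Equiv.Perm (KK D) => ((p ⟨k, hk⟩ : KK D) : Γ)) h3
  have h5 : z ^ (n !) * k * (z ^ (n !))⁻¹ = k := h4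
  rw [mul_inv_eq_iff_eq_mul] at h5
  exact h5

theorem eps_pow (ε : Γ →* ℤˣ) (z : Γ) (hz : ε z = 1) (n : ℕ) : ε (z ^ n) = 1 := by
  rw [map_pow, hz, one_pow]

theorem conj_pow' (D : Dh ε h) (z : Γ) (hz : ε z = 1) (n : ℕ) (hn : Nat.card (KK D) ≤ n)
    (x : Γ) : x⁻¹ * z ^ (n ! * Nat.card (KK D)) * x =
      (z ^ (n ! * Nat.card (KK D))) ^ ((ε x : ℤˣ) : ℤ) := by
  have hf := KK_finite D
  set w : Γ := z ^ (n !) with hw
  have hw1 : ε w = 1 := eps_pow ε z hz _
  set e : ℤ := ((ε x : ℤˣ) : ℤ) with he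
  have he1 : e = 1 ∨ e = -1 := by
    rcases eps_cases ε x with e1 | e1 <;> rw [he, e1] <;> simp
  set k : Γ := x⁻¹ * w * x * (w ^ e)⁻¹ with hk
  have hk1 : k ∈ KK D := by
    rw [mem_KK]
    have e1 : ε (x⁻¹ * w * x) = 1 := by
      rw [map_mul, map_mul, hw1, mul_one, map_inv, inv_mul_cancel]
    have e2 : ε (w ^ e) = 1 := by rw [map_zpow, hw1, one_zpow]
    refine ⟨by rw [hk, map_mul, e1, map_inv, e2, inv_one, one_mul], ?_⟩
    rw [hk, D.coc, h_conj D x w hw1, e1, h_inv D, e2, h_zpow1 D w hw1 e he1, ← he]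
    simp
  have hkw : Commute k w := (pow_comm D z n hn k hk1).symm
  have hkc : k ^ Nat.card (KK D) = 1 := by
    have h1 : (⟨k, hk1⟩ : KK D) ^ Nat.card (KK D) = 1 := pow_card_eq_one'
    exact congrArg (fun y : KK D => (y : Γ)) h1
  have h1 : x⁻¹ * w * x = k * w ^ e := by
    rw [hk, inv_mul_cancel_right]
  have h2 : (x⁻¹ * w * x) ^ Nat.card (KK D) = x⁻¹ * w ^ Nat.card (KK D) * x := by
    have := conj_pow (i := Nat.card (KK D)) (a := x⁻¹) (b := w)
    rw [inv_inv] at this
    exact this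
  rw [pow_mul, ← hw, ← h2, h1, (hkw.zpow_right e).mul_pow, hkc, one_mul, ← zpow_natCast,
    ← zpow_natCast, ← zpow_mul, ← zpow_mul, mul_comm]

/-! ### the heights -/

/-- the height -/
def XX (ε : Γ →* ℤˣ) (h : Γ → ℤ) (y : ℤ) (g : Γ) : ℤ := 4 * h g + ((ε g : ℤˣ) : ℤ) * y

/-- the change of the height -/
def dl (ε : Γ →* ℤˣ) (h : Γ → ℤ) (y : ℤ) (t : Γ) : ℤ := 4 * h t + (((ε t : ℤˣ) : ℤ) - 1) * y

theorem XX_mul (D : Dh ε h) (y : ℤ) (g t : Γ) :
    XX ε h y (g * t) = XX ε h y g + ((ε g : ℤˣ) : ℤ) * dl ε h y t := by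
  unfold XX dl
  rw [D.coc, map_mul, Units.val_mul]
  ring

/-- the window is finite -/
theorem win_finite (D : Dh ε h) (y H : ℤ) : {g | 0 ≤ XX ε h y g ∧ XX ε h y g < H}.Finite := by
  have fib : ∀ (e : ℤˣ) (b : ℤ), {g | ε g = e ∧ h g = b}.Finite := by
    intro e b
    rcases Set.eq_empty_or_nonempty {g | ε g = e ∧ h g = b} with h0 | ⟨g₀, h1, h2⟩
    · rw [h0]
      exact Set.finite_empty
    · refine (D.ker.image (fun k => g₀ * k)).subset ?_
      rintro g ⟨h3, h4⟩
      refine ⟨g₀⁻¹ * g, ⟨?_, ?_⟩, by simp⟩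
      · rw [map_mul, map_inv, h1, h3, inv_mul_cancel]
      · rw [D.coc, h_inv D, map_inv, h1, h2, h4]
        rcases Int.units_eq_one_or e with rfl | rfl <;> simp
  refine ((Set.finite_Icc (-(H + |y|)) (H + |y|)).biUnion (fun b _ =>
    (fib 1 b).union (fib (-1) b))).subset ?_
  rintro g ⟨h1, h2⟩
  rw [Set.mem_iUnion₂]
  have h3 : |h g| ≤ H + |y| := by
    unfold XX at h1 h2
    have hy := neg_abs_le y
    have hy' := le_abs_self y
    have hy0 := abs_nonneg y
    rw [abs_le]
    rcases eps_cases ε g with e | e <;> rw [e] at h1 h2 <;> push_cast at h1 h2 <;>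
      constructor <;> linarith
  rw [abs_le] at h3
  refine ⟨h g, h3, ?_⟩
  rcases eps_cases ε g with e | e
  · exact Or.inl ⟨e, rfl⟩
  · exact Or.inr ⟨e, rfl⟩

/-! ### the permutation -/

open Classical in
/-- the step along the lines -/
noncomputable def PP (ε : Γ →* ℤˣ) (α β : Γ) (hαβ : ε α = ε β) : Equiv.Perm Γ where
  toFun g := if ε g = 1 then g * α else g * β
  invFun g := if ε g = ε α then g * α⁻¹ else g * β⁻¹
  left_inv g := by
    by_cases h1 : ε g = 1
    · simp [h1]
    · have h2 : ε g * ε β ≠ ε α := by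
        intro h3
        rw [← hαβ] at h3
        exact h1 (mul_eq_right.1 h3)
      simp [h1, h2]
  right_inv g := by
    by_cases h1 : ε g = ε α
    · simp [h1]
    · have h2 : ¬ ε g * ε β = 1 := by
        rw [← Int.units_inv_eq_self (ε β), ← hαβ, mul_inv_eq_one]
        exact h1
      simp [h1, h2]

theorem PP_one (α β : Γ) (hαβ : ε α = ε β) (g : Γ) (hg : ε g = 1) :
    PP ε α β hαβ g = g * α := if_pos hg

theorem PP_neg (α β : Γ) (hαβ : ε α = ε β) (g : Γ) (hg : ε g = -1) :
    PP ε α β hαβ g = g * β := if_neg (by rw [hg]; decide)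

theorem PP_X (D : Dh ε h) (y H : ℤ) (α β : Γ) (hαβ : ε α = ε β) (hα : dl ε h y α = H)
    (hβ : dl ε h y β = -H) (g : Γ) : XX ε h y (PP ε α β hαβ g) = XX ε h y g + H := by
  rcases eps_cases ε g with e | e
  · rw [PP_one α β hαβ g e, XX_mul D, hα, e]
    simp
  · rw [PP_neg α β hαβ g e, XX_mul D, hβ, e]
    simp

theorem PP_zpow (D : Dh ε h) (y H : ℤ) (α β : Γ) (hαβ : ε α = ε β) (hα : dl ε h y α = H)
    (hβ : dl ε h y β = -H) (a : ℤ) (g : Γ) :
    XX ε h y ((PP ε α β hαβ ^ a) g) = XX ε h y g + a * H := by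
  have hs := PP_X D y H α β hαβ hα hβ
  induction a using Int.induction_on with
  | zero => simp
  | succ n ih =>
    rw [add_comm ((n : ℕ) : ℤ) 1, zpow_add, zpow_one, Equiv.Perm.mul_apply, hs, ih]
    ring
  | pred n ih =>
    have e : (PP ε α β hαβ ^ (-(n : ℤ))) g =
        PP ε α β hαβ ((PP ε α β hαβ ^ (-(n : ℤ) - 1)) g) := by
      rw [← Equiv.Perm.mul_apply, ← zpow_one_add]
      congr 2
      ring
    rw [e, hs] at ih
    linarith

/-- left multiplication by an element of `ker ε` -/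
theorem PP_left (α β : Γ) (hαβ : ε α = ε β) (x g : Γ) (hx : ε x = 1) :
    x * PP ε α β hαβ g = PP ε α β hαβ (x * g) := by
  rcases eps_cases ε g with e | e
  · rw [PP_one α β hαβ g e, PP_one α β hαβ (x * g) (by rw [map_mul, hx, e, one_mul]), mul_assoc]
  · rw [PP_neg α β hαβ g e, PP_neg α β hαβ (x * g) (by rw [map_mul, hx, e, one_mul]), mul_assoc]

/-- The numbering. -/
def LsStmt : Prop := ∀ (Γ : Type u) [Group Γ] (S : Set Γ), IsGen S → ∀ (X : Γ → ℤ) (H : ℤ),
  0 < H → ∀ (p : Equiv.Perm Γ), (∀ g, X (p g) = X g + H) → (∀ g, g⁻¹ * p g ∈ S) →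
  (∀ g, ∀ t ∈ S, |X (g * t) - X g| ≤ H) → {g | 0 ≤ X g ∧ X g < H}.Finite →
  ∀ (m : ℕ), 0 < m → ∀ (c : Γ), (∀ g, c * g = (p ^ m) g) →
  (∀ g g' : Γ, ∃ (γ : Γ) (e a : ℤ), (e = 1 ∨ e = -1) ∧ γ * g = (p ^ a) g' ∧
    ∀ x, γ * p x = (p ^ e) (γ * x)) →
  ∃ G : SimpleGraph (ℤ × Fin (Nat.card {g : Γ // 0 ≤ X g ∧ X g < H})),
    Lsys (Nat.card {g : Γ // 0 ≤ X g ∧ X g < H}) m G ∧ Nonempty (cay S ≃g G)

theorem core (hLs : LsStmt.{u}) (D : Dh ε h) (S : Set Γ) (hS : IsGen S) (y H : ℤ) (hH : 0 < H)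
    (α β : Γ) (hα : α ∈ S) (hβ : β ∈ S) (hαβ : ε α = ε β) (dα : dl ε h y α = H)
    (dβ : dl ε h y β = -H) (hb : ∀ t ∈ S, |dl ε h y t| ≤ H) (hc : ε α = 1 → β = α⁻¹) :
    ∃ (n m : ℕ) (G : SimpleGraph (ℤ × Fin n)), m ≤ 2 * (n ! * (n * n)) ∧
      Lsys n m G ∧ Nonempty (cay S ≃g G) := by
  classical
  have hKf := KK_finite D
  have hwf := win_finite D y H
  set P := PP ε α β hαβ with hP
  set n : ℕ := Nat.card {g : Γ // 0 ≤ XX ε h y g ∧ XX ε h y g < H} with hn
  have hwF : Finite {g : Γ // 0 ≤ XX ε h y g ∧ XX ε h y g < H} := hwf.to_subtype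
  have hXP := PP_X D y H α β hαβ dα dβ
  have hXz := PP_zpow D y H α β hαβ dα dβ
  -- the kernel is small
  have hKn : Nat.card (KK D) ≤ n := by
    refine Nat.card_le_card_of_injective
      (fun k : KK D => (⟨(P ^ (-(y / H))) (k : Γ), ?_⟩ :
        {g : Γ // 0 ≤ XX ε h y g ∧ XX ε h y g < H})) ?_
    · have e1 : XX ε h y (k : Γ) = y := by
        unfold XX
        rw [k.2.1, k.2.2]
        simp
      rw [hP, hXz, e1]
      have h1 := Int.emod_nonneg y hH.ne'
      have h2 := Int.emod_lt_of_pos y hH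
      have h3 := Int.emod_add_mul_ediv y H
      have h4 : y + -(y / H) * H = y % H := by linarith [mul_comm (y / H) H]
      rw [h4]
      exact ⟨h1, h2⟩
    · intro k k' hk
      have h1 := congrArg Subtype.val hk
      exact Subtype.ext ((P ^ (-(y / H))).injective h1)
  have hKpos : 0 < Nat.card (KK D) := Nat.card_pos
  have hnpos : 0 < n := lt_of_lt_of_le hKpos hKn
  set M : ℕ := n ! * Nat.card (KK D) with hM
  have hMpos : 0 < M := Nat.mul_pos (Nat.factorial_pos n) hKpos
  have hMle : M ≤ n ! * (n * n) := by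
    rw [hM]
    exact Nat.mul_le_mul_left _ (hKn.trans (Nat.le_mul_of_pos_left n hnpos))
  have h2 : ∀ g, g⁻¹ * P g ∈ S := by
    intro g
    rcases eps_cases ε g with e | e
    · rw [hP, PP_one α β hαβ g e, inv_mul_cancel_left]
      exact hα
    · rw [hP, PP_neg α β hαβ g e, inv_mul_cancel_left]
      exact hβ
  have h3 : ∀ g, ∀ t ∈ S, |XX ε h y (g * t) - XX ε h y g| ≤ H := by
    intro g t ht
    rw [XX_mul D, add_sub_cancel_left]
    have := hb t ht
    rcases eps_cases ε g with e | e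
    · rw [e]
      simpa using this
    · rw [e]
      simpa using this
  rcases eps_cases ε α with hη | hη
  · -- translations
    have hβα := hc hη
    have hη' : ε β = 1 := hαβ ▸ hη
    have hpow : ∀ (j : ℕ) (g : Γ), (P ^ j) g = g * (α ^ j) ^ ((ε g : ℤˣ) : ℤ) := by
      intro j
      induction j with
      | zero => intro g; simp
      | succ j ih =>
        intro g
        rw [pow_succ', Equiv.Perm.mul_apply, ih]
        rcases eps_cases ε g with e | e
        · rw [e]
          rw [hP, PP_one α β hαβ _ (by rw [map_mul, map_zpow, map_pow, hη, e]; simp)]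
          simp [pow_succ, mul_assoc]
        · rw [e]
          rw [hP, PP_neg α β hαβ _ (by rw [map_mul, map_zpow, map_pow, hη, e]; simp), hβα]
          simp only [Units.val_neg, Units.val_one, zpow_neg, zpow_one, pow_succ, mul_inv_rev,
            mul_assoc]
          rw [(Commute.pow_self α j).inv_inv.eq]
    refine ⟨n, M, ?_⟩
    obtain ⟨G, hG1, hG2⟩ := hLs Γ S hS (XX ε h y) H hH P hXP h2 h3 hwf M hMpos (α ^ M) (by
      intro g
      rw [hpow]
      have := conj_pow' D α hη n hKn g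
      rw [← hM] at this
      rw [← this]
      group) (by
      intro g g'
      obtain ⟨γ, hγ⟩ : ∃ γ, γ = g' * g⁻¹ := ⟨_, rfl⟩
      refine ⟨γ, ((ε γ : ℤˣ) : ℤ), 0, ?_, by rw [hγ]; simp, ?_⟩
      · rcases eps_cases ε γ with e | e <;> rw [e] <;> simp
      · intro x
        rcases eps_cases ε γ with e | e
        · rw [e]
          have := PP_left α β hαβ γ x e
          simpa using this
        · rw [e]
          have e2 : ∀ z, P z = γ * x → (P⁻¹) (γ * x) = z := by
            intro z hz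
            rw [← hz]
            simp
          have e3 : P (γ * P x) = γ * x := by
            rcases eps_cases ε x with e4 | e4
            · rw [hP, PP_one α β hαβ x e4, PP_neg α β hαβ _ (by
                rw [map_mul, map_mul, e, e4, hη]; simp), hβα]
              group
            · rw [hP, PP_neg α β hαβ x e4, PP_one α β hαβ _ (by
                rw [map_mul, map_mul, e, e4, hη']; simp), hβα]
              group
          have e5 := e2 _ e3
          simp only [Units.val_neg, Units.val_one, zpow_neg, zpow_one]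
          exact e5.symm)
    exact ⟨G, by omega, hG1, hG2⟩
  · -- reflections
    have hη' : ε β = -1 := hαβ ▸ hη
    set z : Γ := α * β with hz
    have hz1 : ε z = 1 := by rw [hz, map_mul, hη, hη']; simp
    have hpow : ∀ (j : ℕ) (g : Γ), (P ^ (2 * j)) g =
        g * (if ε g = 1 then z ^ j else (β * α) ^ j) := by
      intro j
      induction j with
      | zero => intro g; simp
      | succ j ih =>
        intro g
        have e1 : 2 * (j + 1) = 2 + 2 * j := by ring
        rw [e1, pow_add, Equiv.Perm.mul_apply, ih]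
        rcases eps_cases ε g with e | e
        · rw [if_pos e, if_pos e, pow_two, Equiv.Perm.mul_apply, hP,
            PP_one α β hαβ (g * z ^ j) (by rw [map_mul, map_pow, hz1, e]; simp),
            PP_neg α β hαβ _ (by rw [map_mul, map_mul, map_pow, hz1, e, hη]; simp)]
          rw [pow_succ, hz]
          simp only [mul_assoc]
        · have hne : ¬ ε g = 1 := by rw [e]; decide
          have e3 : ε (β * α) = 1 := by rw [map_mul, hη, hη']; simp
          rw [if_neg hne, if_neg hne, pow_two, Equiv.Perm.mul_apply, hP,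
            PP_neg α β hαβ (g * (β * α) ^ j) (by rw [map_mul, map_pow, e3, e]; simp),
            PP_one α β hαβ _ (by rw [map_mul, map_mul, map_pow, e3, e, hη']; simp)]
          rw [pow_succ]
          simp only [mul_assoc]
    have hba : (β * α) ^ M = (z ^ M)⁻¹ := by
      have h1 := conj_pow' D z hz1 n hKn β⁻¹
      rw [← hM, inv_inv, map_inv, hη'] at h1
      have h4 : β * z ^ M * β⁻¹ = (β * z * β⁻¹) ^ M := conj_pow.symm
      have h5 : β * z * β⁻¹ = β * α := by rw [hz]; group
      rw [h4, h5] at h1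
      rw [h1]
      simp
    refine ⟨n, 2 * M, ?_⟩
    obtain ⟨G, hG1, hG2⟩ := hLs Γ S hS (XX ε h y) H hH P hXP h2 h3 hwf (2 * M)
      (by omega) (z ^ M) (by
      intro g
      rw [hpow]
      have h1 := conj_pow' D z hz1 n hKn g
      rw [← hM] at h1
      rcases eps_cases ε g with e | e
      · rw [if_pos e]
        rw [e] at h1
        have h4 : g⁻¹ * z ^ M * g = z ^ M := by simpa using h1
        calc z ^ M * g = g * (g⁻¹ * z ^ M * g) := by group
          _ = g * z ^ M := by rw [h4]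
      · rw [if_neg (by rw [e]; decide), hba]
        rw [e] at h1
        have h4 : g⁻¹ * z ^ M * g = (z ^ M)⁻¹ := by simpa using h1
        calc z ^ M * g = g * (g⁻¹ * z ^ M * g) := by group
          _ = g * (z ^ M)⁻¹ := by rw [h4]) (by
      intro g g'
      have hcov : ∀ g : Γ, ∃ i : ℤ, ε ((P ^ i) g) = 1 := by
        intro g
        rcases eps_cases ε g with e | e
        · exact ⟨0, by simpa using e⟩
        · refine ⟨1, ?_⟩
          rw [zpow_one, hP, PP_neg α β hαβ g e, map_mul, e, hη']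
          simp
      obtain ⟨i, hi⟩ := hcov g
      obtain ⟨i', hi'⟩ := hcov g'
      have hγ : ε ((P ^ i') g' * ((P ^ i) g)⁻¹) = 1 := by
        rw [map_mul, map_inv, hi, hi', inv_one, one_mul]
      set γ : Γ := (P ^ i') g' * ((P ^ i) g)⁻¹ with hγd
      have hc1 : ∀ x, γ * P x = P (γ * x) := fun x => PP_left α β hαβ γ x hγ
      have hc2 : ∀ (a : ℤ) (x : Γ), γ * (P ^ a) x = (P ^ a) (γ * x) := by
        intro a
        induction a using Int.induction_on with
        | zero => intro x; simp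
        | succ k ih =>
          intro x
          rw [zpow_add_one, Equiv.Perm.mul_apply, Equiv.Perm.mul_apply, ih, hc1]
        | pred k ih =>
          intro x
          have e1 : P ((P⁻¹) x) = x := by simp
          have e2 : γ * (P⁻¹) x = (P⁻¹) (γ * x) := by
            apply P.injective
            rw [← hc1, e1]
            simp
          rw [zpow_sub_one, Equiv.Perm.mul_apply, Equiv.Perm.mul_apply, ih, e2]
      refine ⟨γ, 1, i' - i, Or.inl rfl, ?_, fun x => by rw [zpow_one]; exact hc1 x⟩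
      have e1 : γ * (P ^ i) g = (P ^ i') g' := by
        rw [hγd, inv_mul_cancel_right]
      rw [hc2] at e1
      have e3 : (P ^ (-i)) ((P ^ i) (γ * g)) = γ * g := by
        rw [← Equiv.Perm.mul_apply, ← zpow_add]
        simp
      rw [← e3, e1, ← Equiv.Perm.mul_apply, ← zpow_add]
      congr 2
      ring)
    exact ⟨G, by omega, hG1, hG2⟩

theorem dih_of (hLs : LsStmt.{u}) : DihStmt.{u} := by
  intro Γ _ ε h S D hS hfin
  obtain ⟨u, hu⟩ := D.neg
  -- reflections in S
  have hrf : ({t | t ∈ S ∧ ε t = -1}).Nonempty := by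
    by_contra hcon
    rw [Set.not_nonempty_iff_eq_empty] at hcon
    have h1 : ∀ g : Γ, ε g = 1 := by
      intro g
      have hg : g ∈ Subgroup.closure S := by rw [hS.1]; exact Subgroup.mem_top g
      induction hg using Subgroup.closure_induction with
      | mem t ht =>
        rcases eps_cases ε t with e | e
        · exact e
        · have : t ∈ {t | t ∈ S ∧ ε t = -1} := ⟨ht, e⟩
          rw [hcon] at this
          exact this.elim
      | one => exact map_one _
      | mul a b _ _ ha hb => rw [map_mul, ha, hb, one_mul]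
      | inv a _ ha => rw [map_inv, ha, inv_one]
    rw [h1 u] at hu
    exact absurd hu (by decide)
  have hrff : ({t | t ∈ S ∧ ε t = -1}).Finite := hfin.subset fun t ht => ht.1
  obtain ⟨t, ⟨htS, ht⟩, htmax⟩ := Set.exists_max_image _ h hrff hrf
  obtain ⟨r, ⟨hrS, hr⟩, hrmin⟩ := Set.exists_min_image _ h hrff hrf
  set y : ℤ := h t + h r with hy
  obtain ⟨s, hsS, hsmax⟩ := Set.exists_max_image S (fun x => |dl ε h y x|) hfin ⟨t, htS⟩
  set H : ℤ := |dl ε h y s| with hH
  have hH0 : 0 ≤ H := abs_nonneg _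
  have hHpos : 0 < H := by
    rcases hH0.lt_or_eq with h1 | h1
    · exact h1
    exfalso
    have h0 : ∀ x ∈ S, dl ε h y x = 0 := by
      intro x hx
      have h3 : |dl ε h y x| ≤ H := hsmax x hx
      rw [← h1] at h3
      exact abs_nonpos_iff.1 h3
    have hX : ∀ g x : Γ, XX ε h y (x * g) = XX ε h y x := by
      intro g
      have hg : g ∈ Subgroup.closure S := by rw [hS.1]; exact Subgroup.mem_top g
      induction hg using Subgroup.closure_induction with
      | mem t ht => intro x; rw [XX_mul D, h0 t ht, mul_zero, add_zero]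
      | one => intro x; rw [mul_one]
      | mul a b _ _ ha hb => intro x; rw [← mul_assoc, hb, ha]
      | inv a _ ha =>
        intro x
        have := ha (x * a⁻¹)
        rw [inv_mul_cancel_right] at this
        exact this.symm
    obtain ⟨g, hg1, hg2⟩ := D.unb
    have h2 := hX g 1
    rw [one_mul] at h2
    unfold XX at h2
    rw [hg1, map_one, h_one D] at h2
    apply hg2
    linarith
  have hb : ∀ x ∈ S, |dl ε h y x| ≤ H := hsmax
  rcases eps_cases ε s with e | e
  · -- a translation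
    have e1 : dl ε h y s = 4 * h s := by
      unfold dl
      rw [e]
      simp
    have einv : dl ε h y s⁻¹ = -(4 * h s) := by
      unfold dl
      rw [map_inv, e, h_inv D, e]
      simp
    have hεi : ε s⁻¹ = 1 := by rw [map_inv, e, inv_one]
    rcases le_or_gt 0 (h s) with hs | hs
    · have hHs : H = 4 * h s := by rw [hH, e1, abs_of_nonneg (by linarith)]
      exact core hLs D S hS y H hHpos s s⁻¹ hsS (hS.2.1 s hsS) (by rw [e, hεi])
        (by rw [e1, hHs]) (by rw [einv, hHs]) hb (fun _ => rfl)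
    · have hHs : H = -(4 * h s) := by rw [hH, e1, abs_of_neg (by linarith)]
      exact core hLs D S hS y H hHpos s⁻¹ s (hS.2.1 s hsS) hsS (by rw [e, hεi])
        (by rw [einv, hHs]) (by rw [e1, hHs, neg_neg]) hb (fun _ => (inv_inv s).symm)
  · -- reflections
    have dr : ∀ x, ε x = -1 → dl ε h y x = 4 * h x - 2 * y := by
      intro x hx
      unfold dl
      rw [hx]
      push_cast
      ring
    have h1 : dl ε h y t = 2 * (h t - h r) := by rw [dr t ht, hy]; ring
    have h2 : dl ε h y r = -(2 * (h t - h r)) := by rw [dr r hr, hy]; ring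
    have h3 := htmax s ⟨hsS, e⟩
    have h4 := hrmin s ⟨hsS, e⟩
    have h5 := htmax r ⟨hrS, hr⟩
    have h6 : H ≤ 2 * (h t - h r) := by
      rw [hH, dr s e, hy, abs_le]
      constructor <;> linarith
    have h7 : 2 * (h t - h r) ≤ H := by
      have := hb t htS
      rw [h1] at this
      exact (le_abs_self _).trans this
    have h8 : H = 2 * (h t - h r) := le_antisymm h6 h7
    exact core hLs D S hS y H hHpos t r htS hrS (by rw [ht, hr]) (by rw [h1, h8])
      (by rw [h2, h8]) hb (fun hh => by rw [ht] at hh; exact absurd hh (by decide))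

/-- **DIH.** -/
theorem dih : DihStmt.{u} :=
  dih_of fun _ _ S hS X H hH p h1 h2 h3 h4 m hm c h5 h6 =>
    Pool.Agent.Helper38.NW.ls S hS X H hH p h1 h2 h3 h4 m hm c h5 h6

end Pool.Agent.Helper96.NW
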